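import Pool.Agent.Helper28.PR.DefsG
import Pool.Agent.Helper91.PL.Defs

/-!
# PrimeOrbits v2: polynomial transference, the statements of the blocks
-/

set_option autoImplicit false

namespace Pool.Agent.Helper34.PT

open Filter Topology
open Pool.Agent.Helper68.Moeller Pool.Agent.Helper52.Tao Pool.Agent.Helper28.PR Pool.Agent.Helper91.PL

/-- (P2) Uniform integrability of the densities of the limit law, with a power of `δ`. -/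
def UiPoly (d m : ℕ) (r : ℤ → ℤ) : Prop := ∃ (A : ℕ) (C : ℝ), 0 < C ∧ ∀ δ : ℝ, 0 < δ → δ ≤ 1 → ∃ l0 : ℕ, ∀ l : ℕ, l0 ≤ l →
  (∑ Y ∈ Finset.range (m ^ l), if C / δ ^ A < (m : ℝ) ^ l * nu d m r l Y then nu d m r l Y else 0) ≤ δ

/-- (P3a) Most words have a bounded multiplicity, with a power of `δ`. -/
def S2pStmt (d m : ℕ) (r : ℤ → ℤ) : Prop := ∃ (A : ℕ) (C : ℝ), 0 < C ∧ ∀ δ : ℝ, 0 < δ → δ ≤ 1 → ∃ k0 : ℕ, ∀ k : ℕ, k0 ≤ k →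
  cW d k (fun w => C / δ ^ A * rhg d m k w < multg d m r k w) ≤ δ * (d : ℝ) ^ k

/-- (P3b) Polynomial transference. -/
def S5pStmt (d m : ℕ) (r : ℤ → ℤ) : Prop := ∃ K A : ℕ, 0 < K ∧ ∀ θ : ℝ, 0 < θ → ∃ c : ℝ, 0 < c ∧ ∀ η : ℝ, 0 < η → η ≤ 1 →
  ∃ Y : ℕ, ∀ y H : ℕ, Y ≤ y → (y : ℝ) ^ θ ≤ H → H ≤ y → ∀ B : Set ℤ,
    ({n : ℤ | (y : ℤ) < n ∧ n ≤ y + H ∧ (T d m r)^[kyg K y] n ∈ B}.ncard : ℝ) ≤ c * η ^ A * H →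
    ({p : ℕ | p.Prime ∧ y < p ∧ p ≤ y + H ∧ (T d m r)^[kyg K y] (p : ℤ) ∈ B}.ncard : ℝ) ≤ η * (H / Real.log y)

/-- (P4) The power tail for the primes. -/
def TailP (d m : ℕ) (r : ℤ → ℤ) (κ : ℝ) : Prop := ∃ C : ℝ, 0 < C ∧ ∀ z : ℝ, 1 ≤ z → ∃ X : ℝ, ∀ x : ℝ, X ≤ x →
  ({p : ℕ | p.Prime ∧ (p : ℝ) ≤ x ∧ ∀ t : ℕ, z < ((T d m r)^[t] (p : ℤ) : ℝ)}.ncard : ℝ) ≤ C * z ^ (-κ) * (x / Real.log x)

end Pool.Agent.Helper34.PT
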