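import Pool.Agent.Helper34.PT.Defs
import Pool.Agent.Helper28.PR.F4
import Pool.Agent.Helper30.PD.MinLaw

/-!
# PrimeOrbits v2, block P4: the primes of an invariant set of small density; the power tail for the primes
-/

set_option autoImplicit false

namespace Pool.Agent.Helper34.PT

open Filter Topology
open Pool.Agent.Helper68.Moeller Pool.Agent.Helper52.Tao Pool.Agent.Helper8.ND Pool.Agent.Helper8 Pool.Agent.Helper91
  Pool.Agent.Helper28 Pool.Agent.Helper28.PR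

variable {d m : ℕ} {r : ℤ → ℤ}

/-- Invariant sets with few elements have few primes, with a power. -/
theorem small_primesp (hd : 2 ≤ d) (hm : 1 ≤ m) (hadm : Admissible d m r) (h5 : S5pStmt d m r) :
    ∃ a C : ℝ, 0 < a ∧ 0 < C ∧ ∀ δ : ℝ, 0 < δ → ∀ z : ℝ, 0 ≤ z → ∃ Y : ℕ, ∀ G : Set ℤ, TInv d m r G z → ∀ y : ℕ, Y ≤ y →
      ({n : ℤ | (y : ℤ) < n ∧ n ≤ y + y ∧ n ∈ G}.ncard : ℝ) ≤ δ * y →
      ({p : ℕ | p.Prime ∧ y < p ∧ p ≤ y + y ∧ (p : ℤ) ∈ G}.ncard : ℝ) ≤ C * δ ^ a * (y / Real.log y) := by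
  obtain ⟨K, A, hK, h5⟩ := h5
  obtain ⟨c, hc, h5⟩ := h5 1 one_pos
  have hA0 : (0 : ℝ) < (A : ℝ) + 1 := by positivity
  set a : ℝ := 1 / ((A : ℝ) + 1) with ha
  have ha0 : 0 < a := by positivity
  set C₁ : ℝ := (1 / c) ^ a with hC₁
  have hC₁0 : 0 < C₁ := Real.rpow_pos_of_pos (by positivity) _
  refine ⟨a, max 1 4 * C₁, ha0, by positivity, fun δ hδ z hz => ?_⟩
  set η : ℝ := C₁ * δ ^ a with hη
  have hη0 : 0 < η := mul_pos hC₁0 (Real.rpow_pos_of_pos hδ _)
  have hηA : c * η ^ (A + 1) = δ := by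
    have h1 : η = (1 / c * δ) ^ a := by rw [hη, hC₁, ← Real.mul_rpow (by positivity) hδ.le]
    have h2 : (((1 / c * δ) ^ a : ℝ)) ^ (A + 1) = 1 / c * δ := by
      rw [← Real.rpow_natCast, ← Real.rpow_mul (by positivity), ha]
      push_cast
      rw [one_div_mul_cancel hA0.ne', Real.rpow_one]
    rw [h1, h2]
    field_simp
  rcases le_or_gt η 1 with h1 | h1
  · obtain ⟨Y, hY⟩ := h5 η hη0 h1
    obtain ⟨Y1, hY1⟩ := eventually_atTop.1 (high_path hd hm hadm hK hz)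
    refine ⟨max (max Y Y1) 3, fun G hG y hy hsm => ?_⟩
    have hyY : Y ≤ y := (le_max_left _ _).trans ((le_max_left _ _).trans hy)
    have hyY1 : Y1 ≤ y := (le_max_right _ _).trans ((le_max_left _ _).trans hy)
    have hy3 : 3 ≤ y := (le_max_right _ _).trans hy
    have h1' := hY1 y hyY1
    have h2 := hY y y hyY (by rw [Real.rpow_one]) le_rfl G
    have e1 : {n : ℤ | (y : ℤ) < n ∧ n ≤ y + y ∧ (T d m r)^[kyg K y] n ∈ G} = {n : ℤ | (y : ℤ) < n ∧ n ≤ y + y ∧ n ∈ G} := by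
      ext n
      simp only [Set.mem_ofPred_eq]
      constructor
      · rintro ⟨a, b, c⟩
        exact ⟨a, b, (mem_pathg hG _ (h1' n a)).2 c⟩
      · rintro ⟨a, b, c⟩
        exact ⟨a, b, (mem_pathg hG _ (h1' n a)).1 c⟩
    have e2 : {p : ℕ | p.Prime ∧ y < p ∧ p ≤ y + y ∧ (T d m r)^[kyg K y] (p : ℤ) ∈ G} =
        {p : ℕ | p.Prime ∧ y < p ∧ p ≤ y + y ∧ (p : ℤ) ∈ G} := by
      ext p
      simp only [Set.mem_ofPred_eq]
      constructor
      · rintro ⟨a, b, c, e⟩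
        exact ⟨a, b, c, (mem_pathg hG _ (h1' p (by exact_mod_cast b))).2 e⟩
      · rintro ⟨a, b, c, e⟩
        exact ⟨a, b, c, (mem_pathg hG _ (h1' p (by exact_mod_cast b))).1 e⟩
    rw [e1, e2] at h2
    have hyR : (3 : ℝ) ≤ y := by exact_mod_cast hy3
    have hly : 0 < Real.log y := Real.log_pos (by linarith)
    have h3 : δ * y ≤ c * η ^ A * y := by
      refine mul_le_mul_of_nonneg_right ?_ (by linarith)
      rw [← hηA, pow_succ, ← mul_assoc]
      exact mul_le_of_le_one_right (by positivity) h1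
    refine (h2 (hsm.trans h3)).trans ?_
    have h4 : η ≤ max 1 4 * C₁ * δ ^ a := by
      rw [mul_assoc, ← hη]
      exact le_mul_of_one_le_left hη0.le (le_max_left _ _)
    exact mul_le_mul_of_nonneg_right h4 (by positivity)
  · obtain ⟨Y0, hY0⟩ := eventually_atTop.1 cp_up
    refine ⟨max ⌈Y0⌉₊ 3, fun G hG y hy _ => ?_⟩
    have hy3 : 3 ≤ y := (le_max_right _ _).trans hy
    have hyR : (3 : ℝ) ≤ y := by exact_mod_cast hy3
    have hy0 : Y0 ≤ y := (Nat.le_ceil _).trans (by exact_mod_cast (le_max_left _ _).trans hy)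
    have hly : 0 < Real.log y := Real.log_pos (by linarith)
    have h2 := hY0 ((y : ℝ) + y) (by linarith)
    have h3 : ({p : ℕ | p.Prime ∧ y < p ∧ p ≤ y + y ∧ (p : ℤ) ∈ G}.ncard : ℝ) ≤ cp (fun _ => True) ((y : ℝ) + y) := by
      unfold cp
      refine Nat.cast_le.2 (Set.ncard_le_ncard ?_ (finite_cp (fun _ => True) _))
      rintro p ⟨a1, a2, a3, a4⟩
      exact ⟨a1, by exact_mod_cast a3, trivial⟩
    refine h3.trans (h2.trans ?_)
    have h4 : ((y : ℝ) + y) / Real.log ((y : ℝ) + y) ≤ 2 * (y / Real.log y) := by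
      have h5 : Real.log y ≤ Real.log ((y : ℝ) + y) := Real.log_le_log (by linarith) (by linarith)
      rw [← two_mul, mul_div_assoc]
      refine mul_le_mul_of_nonneg_left ?_ (by norm_num)
      rw [← two_mul] at h5
      exact div_le_div_of_nonneg_left (by linarith) hly h5
    have h5 : 4 * (y / Real.log y) ≤ max 1 4 * C₁ * δ ^ a * (y / Real.log y) := by
      refine mul_le_mul_of_nonneg_right ?_ (by positivity)
      rw [mul_assoc, ← hη]
      have : (4 : ℝ) ≤ max 1 4 := le_max_right _ _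
      nlinarith
    linarith

/-- **The power tail for the primes.** -/
theorem tailP_of (h : POSB.Std d m r) {κ : ℝ} (hκ : 0 < κ) (hst : Pool.Agent.Helper30.PD.StayTail d m r κ) (h5 : S5pStmt d m r) :
    ∃ κ' : ℝ, 0 < κ' ∧ TailP d m r κ' := by
  obtain ⟨a, C, ha, hC, h1⟩ := small_primesp h.hd (by have := h.hdm; omega) h.hr h5
  obtain ⟨Cs, hCs, hst⟩ := hst
  refine ⟨κ * a, by positivity, 3 * (C * (2 * Cs) ^ a), by positivity, fun z hz => ?_⟩
  have hz0 : 0 < z := by linarith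
  have hzκ : 0 < z ^ (-κ) := Real.rpow_pos_of_pos hz0 _
  set G : Set ℤ := {n : ℤ | ∀ k : ℕ, z < ((T d m r)^[k] n : ℝ)} with hG
  have hGT : TInv d m r G z := by
    intro n hn
    constructor
    · intro h2 k
      have := h2 (k + 1)
      rwa [Function.iterate_succ_apply] at this
    · intro h2 k
      rcases k with _ | k
      · exact hn
      · rw [Function.iterate_succ_apply]
        exact h2 k
  obtain ⟨Y, hY⟩ := h1 (2 * Cs * z ^ (-κ)) (by positivity) z hz0.le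
  have h2 : ∀ y : ℕ, max Y 1 ≤ y → ({p : ℕ | p.Prime ∧ y < p ∧ p ≤ y + y ∧ (p : ℤ) ∈ G}.ncard : ℝ) ≤
      C * (2 * Cs * z ^ (-κ)) ^ a * (y / Real.log y) := by
    intro y hy
    refine hY G hGT y ((le_max_left _ _).trans hy) ?_
    have hy1 : (1 : ℝ) ≤ y := by exact_mod_cast (le_max_right _ _).trans hy
    have h3 := hst ((y : ℝ) + y) z (by linarith) hz
    have h4 : ({n : ℤ | (y : ℤ) < n ∧ n ≤ y + y ∧ n ∈ G}.ncard : ℝ) ≤ cN G ((y : ℝ) + y) := by
      unfold cN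
      refine Nat.cast_le.2 (Set.ncard_le_ncard ?_ (finite_cN G _))
      rintro n ⟨a1, a2, a3⟩
      exact ⟨a3, by omega, by exact_mod_cast a2⟩
    refine h4.trans (h3.trans (le_of_eq ?_))
    ring
  have h3 := dyadic_sum (P := fun p => (p : ℤ) ∈ G) (η := C * (2 * Cs * z ^ (-κ)) ^ a) (by positivity) h2
  obtain ⟨X, hX⟩ := eventually_atTop.1 h3
  refine ⟨X, fun x hx => ?_⟩
  have h4 := hX x hx
  have e : (2 * Cs * z ^ (-κ)) ^ a = (2 * Cs) ^ a * z ^ (-(κ * a)) := by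
    rw [Real.mul_rpow (by positivity) hzκ.le, ← Real.rpow_mul hz0.le, neg_mul]
  rw [e] at h4
  have h5 : ({p : ℕ | p.Prime ∧ (p : ℝ) ≤ x ∧ ∀ t : ℕ, z < ((T d m r)^[t] (p : ℤ) : ℝ)}.ncard : ℝ) = cp (fun p => (p : ℤ) ∈ G) x := rfl
  rw [h5]
  refine h4.trans (le_of_eq ?_)
  ring

end Pool.Agent.Helper34.PT
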